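import Pool.Agent.H482R3.EB.Stm

set_option autoImplicit false

/-! Project EB (helper482): task ARTR (helper131). -/

namespace Pool.Agent.H131R.EB

open Pool.Agent.H482R3.EA
open Pool.Agent.H482R3.EB

/-- `alternatingWord` ends with its second letter, `alt` begins with its first letter -/
theorem artr_alt {B : Type} (k : ℕ) : ∀ i j : B,
    CoxeterSystem.alternatingWord i j k = if Even k then alt i j k else alt j i k := by
  induction k with
  | zero => intro i j; simp [CoxeterSystem.alternatingWord, alt]
  | succ k ih =>
    intro i j
    rw [CoxeterSystem.alternatingWord_succ', ih i j]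
    by_cases h : Even k
    · have h' : ¬ Even (k + 1) := by simpa [Nat.even_add_one] using h
      rw [if_pos h, if_pos h, if_neg h']
      rfl
    · have h' : Even (k + 1) := by simpa [Nat.even_add_one] using h
      rw [if_neg h, if_neg h, if_pos h']
      rfl

theorem artr_ev {S G H : Type} [Group G] [Group H] (φ : G →* H) (f : S → G) (u : W S) :
    φ (ev f u) = ev (fun s => φ (f s)) u := by
  unfold ev
  rw [map_list_prod, List.map_map]
  congr 1
  apply List.map_congr_left
  intro a _
  simp only [Function.comp]
  split_ifs
  · rfl
  · rw [map_inv]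

theorem artr_lift {B G : Type} [Group G] (f : B → G) (l : List B) :
    FreeGroup.lift f ((l.map FreeGroup.of).prod) = (l.map f).prod := by
  rw [map_list_prod, List.map_map]
  congr 1
  apply List.map_congr_left
  intro a _
  simp only [Function.comp, FreeGroup.lift_apply_of]

theorem artr_mk {B : Type} (R : Set (FreeGroup B)) (l : List B) :
    PresentedGroup.mk R ((l.map FreeGroup.of).prod) =
      (l.map (fun b => (PresentedGroup.of b : PresentedGroup R))).prod := by
  rw [map_list_prod, List.map_map]
  rfl

theorem t_ARTR (hL : S_LIFTR) (hR : S_RELR) : S_ARTR := by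
  intro n m hii hs u
  -- the relations of `Art m`
  have hrelA : ∀ s t : Fin n, s ≠ t → m s t ≠ 0 →
      ((alt s t (m s t)).map (fun b => (PresentedGroup.of b : Art m))).prod =
        ((alt t s (m s t)).map (fun b => (PresentedGroup.of b : Art m))).prod := by
    intro s t hst hm
    have hmem : ((CoxeterSystem.alternatingWord s t (m s t)).map FreeGroup.of).prod *
        (((CoxeterSystem.alternatingWord t s (m s t)).map FreeGroup.of).prod)⁻¹ ∈
        {r : FreeGroup (Fin n) | ∃ i j : Fin n, m i j ≠ 0 ∧
          r = ((CoxeterSystem.alternatingWord i j (m i j)).map FreeGroup.of).prod *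
            (((CoxeterSystem.alternatingWord j i (m i j)).map FreeGroup.of).prod)⁻¹} :=
      ⟨s, t, hm, rfl⟩
    have h := PresentedGroup.one_of_mem hmem
    rw [map_mul, map_inv, mul_inv_eq_one, artr_mk, artr_mk, artr_alt, artr_alt] at h
    split_ifs at h with he
    · exact h
    · exact h.symm
  obtain ⟨φ, -, hφ⟩ := hL (Fin n) (Art m) inferInstance m
    (fun s => PresentedGroup.of s) hrelA
  have hrelE : ∀ r ∈ {r : FreeGroup (Fin n) | ∃ i j : Fin n, m i j ≠ 0 ∧
          r = ((CoxeterSystem.alternatingWord i j (m i j)).map FreeGroup.of).prod *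
            (((CoxeterSystem.alternatingWord j i (m i j)).map FreeGroup.of).prod)⁻¹},
      FreeGroup.lift (gR m) r = 1 := by
    rintro r ⟨i, j, hij0, rfl⟩
    by_cases hij : i = j
    · subst hij
      rw [mul_inv_cancel, map_one]
    · rw [map_mul, map_inv, mul_inv_eq_one, artr_lift, artr_lift, artr_alt, artr_alt]
      have h := hR.1 (Fin n) m i j hij hij0
      split_ifs with he
      · exact h
      · exact h.symm
  set ψ : Art m →* AR m := PresentedGroup.toGroup hrelE with hψ
  have hψof : ∀ s, ψ (PresentedGroup.of s) = gR m s := fun s => PresentedGroup.toGroup.of hrelE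
  unfold TR
  constructor
  · intro h
    have h1 : ev (fun s => (PresentedGroup.of s : Art m)) u = 1 := h
    have h2 := congrArg ψ h1
    rw [artr_ev, map_one] at h2
    simp only [hψof] at h2
    exact h2
  · intro h
    have h1 := congrArg φ h
    rw [hφ, map_one] at h1
    exact h1

end Pool.Agent.H131R.EB
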